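import Mathlib
import Pool.Agent.H.MP_0132f6_co.A

namespace Pool.Agent.Results.MP_0132f6_co.Yes

open Finset

/-- The 3-term progressions `(a, a+d, a+2d)` in `[n]`, as pairs `(a, d)`. -/
def AP (n : ℕ) : Finset (ℕ × ℕ) := (Icc 1 n ×ˢ Icc 1 n).filter fun p => p.1 + 2 * p.2 ≤ n

/-- Each of the eight types occurs on exactly one eighth of the progressions; `x 1, ..., x n` is the
sequence. -/
def Proportional (n : ℕ) (x : ℕ → Bool) : Prop :=
  ∀ t : Bool × Bool × Bool,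
    8 * ((AP n).filter fun p => (x p.1, x (p.1 + p.2), x (p.1 + 2 * p.2)) = t).card = (AP n).card

open Pool.Agent.H.MP_0132f6_co

theorem nest (n : ℕ) (f : ℕ → ℕ → ℕ → ℤ) :
    ∑ p ∈ AP n, f (p.1 - 1) (p.1 + p.2 - 1) (p.1 + 2 * p.2 - 1) =
      ∑ c ∈ range n, ∑ d ∈ range (c / 2), f (c - 2 * (d + 1)) (c - (d + 1)) c := by
  rw [sum_sigma']
  refine sum_nbij' (fun p => ⟨p.1 + 2 * p.2 - 1, p.2 - 1⟩) (fun q => (q.1 - 2 * (q.2 + 1) + 1, q.2 + 1))
    ?_ ?_ ?_ ?_ ?_ <;>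
    simp only [AP, mem_filter, mem_product, mem_Icc, mem_sigma, mem_range, Prod.ext_iff, Sigma.ext_iff,
      heq_eq_eq] <;> intro p hp
  all_goals first | omega | (congr 1 <;> omega)

theorem refl (n : ℕ) (f : ℕ → ℕ → ℕ → ℤ) (h : ∀ a b c a' b' c', a + c' + 1 = n → b + b' + 1 = n →
    c + a' + 1 = n → f a' b' c' = -f a b c) :
    ∑ p ∈ AP n, f (p.1 - 1) (p.1 + p.2 - 1) (p.1 + 2 * p.2 - 1) = 0 := by
  have : ∑ p ∈ AP n, f (p.1 - 1) (p.1 + p.2 - 1) (p.1 + 2 * p.2 - 1) =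
      ∑ p ∈ AP n, -f (p.1 - 1) (p.1 + p.2 - 1) (p.1 + 2 * p.2 - 1) := by
    refine sum_nbij' (fun p => (n + 1 - (p.1 + 2 * p.2), p.2)) (fun p => (n + 1 - (p.1 + 2 * p.2), p.2))
      ?_ ?_ ?_ ?_ fun p hp => h _ _ _ _ _ _ ?_ ?_ ?_ <;>
      simp only [AP, mem_filter, mem_product, mem_Icc, Prod.ext_iff, and_true] at * <;> intros <;> omega
  rw [sum_neg_distrib] at this
  omega

theorem ident {y : ℕ → ℤ} (pm : ∀ a, y a = 1 ∨ y a = -1) (m : ℕ) :
    4 * ∑ c ∈ range (2 * m), ∑ _d ∈ range (c / 2), y c = 2 * ∑ a ∈ range (2 * m), (a : ℤ) * y a +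
      ∑ a ∈ range (2 * m), (-1) ^ a * y a - Y y (2 * m) ∧
    2 * ∑ c ∈ range (2 * m), ∑ d ∈ range (c / 2), y (c - (d + 1)) * y c = Y y (2 * m) ^ 2 - 2 * m -
      2 * Y y m * Y y (2 * m) + 2 * ∑ j ∈ range m, y j * Y y (2 * j + 1) ∧
    4 * ∑ c ∈ range (2 * m), ∑ d ∈ range (c / 2), y (c - 2 * (d + 1)) * y c = Y y (2 * m) ^ 2 +
      (∑ a ∈ range (2 * m), (-1) ^ a * y a) ^ 2 - 4 * m ∧
    2 * ∑ d ∈ range m, y (2 * d) = Y y (2 * m) + ∑ a ∈ range (2 * m), (-1) ^ a * y a ∧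
    2 * ∑ d ∈ range m, y (2 * d + 1) = Y y (2 * m) - ∑ a ∈ range (2 * m), (-1) ^ a * y a := by
  have sq : ∀ a, y a ^ 2 = 1 := fun a => by rcases pm a with h | h <;> simp [h]
  have s1 : ∀ k c, k ≤ c → ∑ d ∈ range k, y (c - (d + 1)) = Y y c - Y y (c - k) := fun k c h => by
    induction k with
    | zero => simp
    | succ k ih =>
      rw [sum_range_succ, ih (by omega), show c - k = c - (k + 1) + 1 by omega, Y, Y, Y, sum_range_succ]
      ring
  have s2 : ∀ m e, ∑ d ∈ range m, y (2 * m + e - 2 * (d + 1)) = ∑ d ∈ range m, y (2 * d + e) :=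
    fun m e => by
    rw [← sum_range_reflect]
    exact sum_congr rfl fun d hd => congrArg y (by have := mem_range.1 hd; omega)
  induction m with
  | zero => simp [Y]
  | succ m ih =>
    obtain ⟨i1, i2, i3, i4, i5⟩ := ih
    have a := s2 m 0
    have e1 : (2 * m + 1) / 2 = m := by omega
    have e2 : 2 * m / 2 = m := by omega
    have y1 : ∀ k, Y y (k + 1) = Y y k + y k := fun k => sum_range_succ _ _
    simp only [add_zero] at a
    simp only [show 2 * (m + 1) = 2 * m + 1 + 1 by ring, sum_range_succ, ← sum_mul, e1, e2, s2, a,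
      s1 m (2 * m) (by omega), s1 m (2 * m + 1) (by omega), show 2 * m - m = m by omega,
      show 2 * m + 1 - m = m + 1 by omega, y1, sum_const, card_range, nsmul_eq_mul, pow_succ, pow_mul, Nat.cast_add, Nat.cast_mul, Nat.cast_one, Nat.cast_ofNat] at *
    refine ⟨by linear_combination i1, ?_, ?_, by linear_combination i4, by linear_combination i5⟩
    · linear_combination i2 - sq (2 * m) - sq (2 * m + 1)
    · linear_combination i3 - 2 * sq (2 * m) - 2 * sq (2 * m + 1) + 2 * y (2 * m) * i4 +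
        2 * y (2 * m + 1) * i5

theorem result : {n : ℕ | 3 ≤ n ∧ ∃ x : ℕ → Bool, Proportional n x}.Infinite := by
  refine Set.infinite_of_injective_forall_mem (f := fun k : ℕ => 2 * (7 ^ k * 4) ^ 2)
    (StrictMono.injective fun a b h => by
      have := Nat.pow_lt_pow_right (a := 7) (by norm_num) h
      gcongr) fun k => ⟨by have := Nat.one_le_pow k 7 (by norm_num); nlinarith, ?_⟩
  obtain ⟨y, h⟩ := all k
  generalize 7 ^ k * 4 = S at h
  refine ⟨fun a => y (a - 1) = 1, fun ⟨t1, t2, t3⟩ => ?_⟩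
  obtain ⟨i1, i2, i3, -⟩ := ident h.pm (S ^ 2)
  rw [h.tot, ← nest _ fun _ _ c => y c, h.mom, h.alt] at i1
  rw [h.tot, ← nest _ fun _ b c => y b * y c, h.quad] at i2
  rw [h.tot, ← nest _ fun a _ c => y a * y c, h.alt] at i3
  have an := h.anti
  have r1 := refl (2 * S ^ 2) (fun a _ c => y a + y c) fun a b c a' b' c' h1 _ h3 => by
    rw [an _ _ h1, an _ _ h3]; ring
  have r2 := refl (2 * S ^ 2) (fun _ b _ => y b) fun a b c a' b' c' _ h2 _ => an _ _ h2
  have r3 := refl (2 * S ^ 2) (fun a b c => y a * y b * y c) fun a b c a' b' c' h1 h2 h3 => by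
    rw [an _ _ h1, an _ _ h2, an _ _ h3]; ring
  have r4 := refl (2 * S ^ 2) (fun a b c => y a * y b - y b * y c) fun a b c a' b' c' h1 h2 h3 => by
    rw [an _ _ h1, an _ _ h2, an _ _ h3]; ring
  have sg : ∀ (a : ℕ) (t : Bool), (if decide (y a = 1) = t then (2 : ℤ) else 0) =
      1 + (if t then 1 else -1) * y a := fun a t => by
    rcases h.pm a with e | e <;> cases t <;> simp [e]
  have key : ∀ a b c : ℕ, (8 : ℤ) * (if (decide (y a = 1), decide (y b = 1), decide (y c = 1)) =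
      (t1, t2, t3) then 1 else 0) = (1 + (if t1 then 1 else -1) * y a) *
      (1 + (if t2 then 1 else -1) * y b) * (1 + (if t3 then 1 else -1) * y c) := fun a b c => by
    simp only [← sg, Prod.mk.injEq]; split_ifs <;> simp_all
  zify
  rw [card_filter]
  push_cast at *
  rw [mul_sum, sum_congr rfl fun p _ => key _ _ _]
  generalize (if t1 then 1 else -1 : ℤ) = e1
  generalize (if t2 then 1 else -1 : ℤ) = e2
  generalize (if t3 then 1 else -1 : ℤ) = e3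
  rw [sum_congr rfl fun p _ => (by ring : _ = 1 + e1 * (y (p.1 - 1) + y (p.1 + 2 * p.2 - 1)) +
    e2 * y (p.1 + p.2 - 1) + (e3 - e1) * y (p.1 + 2 * p.2 - 1) + e1 * e2 * (y (p.1 - 1) * y (p.1 + p.2 - 1)
    - y (p.1 + p.2 - 1) * y (p.1 + 2 * p.2 - 1)) + (e1 + e3) * e2 * (y (p.1 + p.2 - 1) *
    y (p.1 + 2 * p.2 - 1)) + e1 * e3 * (y (p.1 - 1) * y (p.1 + 2 * p.2 - 1)) +
    e1 * e2 * e3 * (y (p.1 - 1) * y (p.1 + p.2 - 1) * y (p.1 + 2 * p.2 - 1)))]
  simp only [sum_add_distrib (s := AP _) (g := fun p => _ * _), ← mul_sum, r1, r2, r3, r4]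
  rw [show ∑ p ∈ AP (2 * S ^ 2), y (p.1 + 2 * p.2 - 1) = 0 by omega,
    show ∑ p ∈ AP (2 * S ^ 2), y (p.1 + p.2 - 1) * y (p.1 + 2 * p.2 - 1) = 0 by linarith,
    show ∑ p ∈ AP (2 * S ^ 2), y (p.1 - 1) * y (p.1 + 2 * p.2 - 1) = 0 by linarith]
  simp

end Pool.Agent.Results.MP_0132f6_co.Yes
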